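import Pool.Agent.Y862.SQ.Stm2

set_option autoImplicit false

/-!
# The collision factor of polynomials on average (helper954)
-/

namespace Pool.Agent.Y954.SQ

open Finset Pool.Agent.Y862.SQ

/-- solutions of quadratic congruences -/
lemma quad_mod (b c : ℤ) (p : ℕ) (hp : p.Prime) : ∃ B : Finset ℤ, B.card ≤ 2 ∧
    ∀ s : ℤ, (p : ℤ) ∣ s ^ 2 + b * s + c → ∃ a ∈ B, (p : ℤ) ∣ s - a := by
  by_cases h : ∃ s1 : ℤ, (p : ℤ) ∣ s1 ^ 2 + b * s1 + c
  · obtain ⟨s1, hs1⟩ := h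
    refine ⟨{s1, -s1 - b}, card_le_two, fun s hs => ?_⟩
    have h1 : (p : ℤ) ∣ (s - s1) * (s - (-s1 - b)) := by
      have h2 := dvd_sub hs hs1
      have h3 : s ^ 2 + b * s + c - (s1 ^ 2 + b * s1 + c) = (s - s1) * (s - (-s1 - b)) := by ring
      rwa [h3] at h2
    rcases (Nat.prime_iff_prime_int.1 hp).dvd_or_dvd h1 with h2 | h2
    · exact ⟨s1, by simp, h2⟩
    · exact ⟨-s1 - b, by simp, h2⟩
  · push Not at h
    exact ⟨∅, by simp, fun s hs => absurd hs (h s)⟩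

lemma crt (b c : ℤ) (U : Finset ℕ) (hU : ∀ p ∈ U, p.Prime) : ∃ A : Finset ℤ,
    A.card ≤ 2 ^ U.card ∧ ∀ s : ℤ, (∀ p ∈ U, (p : ℤ) ∣ s ^ 2 + b * s + c) →
      ∃ a ∈ A, ((∏ p ∈ U, p : ℕ) : ℤ) ∣ s - a := by
  classical
  induction U using Finset.induction_on with
  | empty => exact ⟨{0}, by simp, fun s _ => ⟨0, by simp, by simp⟩⟩
  | insert p U hpU ih =>
    obtain ⟨A, hA1, hA2⟩ := ih fun q hq => hU q (mem_insert_of_mem hq)
    have hp := hU p (mem_insert_self p U)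
    obtain ⟨B, hB1, hB2⟩ := quad_mod b c p hp
    have hcop : IsCoprime (p : ℤ) ((∏ q ∈ U, q : ℕ) : ℤ) := by
      rw [Nat.isCoprime_iff_coprime]
      apply Nat.Coprime.prod_right
      intro q hq
      rw [Nat.coprime_primes hp (hU q (mem_insert_of_mem hq))]
      rintro rfl
      exact hpU hq
    obtain ⟨u, v, huv⟩ := hcop
    refine ⟨(A ×ˢ B).image (fun x => x.1 * (u * p) + x.2 * (v * ((∏ q ∈ U, q : ℕ) : ℤ))), ?_, ?_⟩
    · refine card_image_le.trans ?_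
      rw [card_product, card_insert_of_notMem hpU, pow_succ]
      exact Nat.mul_le_mul hA1 hB1
    · intro s hs
      obtain ⟨a, ha, ha'⟩ := hA2 s fun q hq => hs q (mem_insert_of_mem hq)
      obtain ⟨d, hd, hd'⟩ := hB2 s (hs p (mem_insert_self p U))
      refine ⟨a * (u * p) + d * (v * ((∏ q ∈ U, q : ℕ) : ℤ)), ?_, ?_⟩
      · rw [mem_image]
        exact ⟨(a, d), mem_product.2 ⟨ha, hd⟩, rfl⟩
      · rw [prod_insert hpU, Nat.cast_mul]
        have e : s - (a * (u * p) + d * (v * ((∏ q ∈ U, q : ℕ) : ℤ))) =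
            (s - a) * (u * p) + (s - d) * (v * ((∏ q ∈ U, q : ℕ) : ℤ)) := by
          linear_combination (-s) * huv
        rw [e]
        apply dvd_add
        · obtain ⟨k, hk⟩ := ha'
          exact ⟨k * u, by rw [hk]; ring⟩
        · obtain ⟨k, hk⟩ := hd'
          exact ⟨k * v, by rw [hk]; ring⟩

lemma count_class (M : ℕ) (D : ℕ) (hD : 0 < D) (a : ℤ) :
    (((Icc (-(M : ℤ)) M).filter (fun s => (D : ℤ) ∣ s - a)).card : ℝ) ≤
      (2 * M + 1) / D + 1 := by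
  have h1 : Icc (-(M : ℤ)) M = Ioc (-(M : ℤ) - 1) M := by
    ext x
    rw [mem_Icc, mem_Ioc]
    omega
  have h2 : (Icc (-(M : ℤ)) M).filter (fun s => (D : ℤ) ∣ s - a) =
      (Ioc (-(M : ℤ) - 1) M).filter (fun s => s ≡ a [ZMOD D]) := by
    rw [h1]
    apply filter_congr
    intro x _
    rw [Int.modEq_comm, Int.modEq_iff_dvd]
  have hD' : (0 : ℤ) < D := by exact_mod_cast hD
  have hDr : (0 : ℝ) < D := by exact_mod_cast hD
  have h3 := Int.Ioc_filter_modEq_card (-(M : ℤ) - 1) M hD' a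
  rw [← h2] at h3
  have h4 : (((Icc (-(M : ℤ)) M).filter (fun s => (D : ℤ) ∣ s - a)).card : ℝ) =
      ((max (⌊((M : ℤ) - a) / (D : ℚ)⌋ - ⌊((-(M : ℤ) - 1 : ℤ) - a) / (D : ℚ)⌋) 0 : ℤ) : ℝ) := by
    rw [← Int.cast_natCast (R := ℝ), h3]
    push_cast
    rfl
  rw [h4, Int.cast_max, Int.cast_zero]
  apply max_le
  · push_cast
    have h5 : ((⌊((M : ℚ) - a) / (D : ℚ)⌋ : ℤ) : ℚ) ≤ ((M : ℚ) - a) / D := Int.floor_le _
    have h6 : ((-(M : ℚ) - 1) - a) / D < (⌊((-(M : ℚ) - 1) - a) / (D : ℚ)⌋ : ℚ) + 1 :=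
      Int.lt_floor_add_one _
    have h7 : ((⌊((M : ℚ) - a) / (D : ℚ)⌋ : ℤ) : ℚ) - (⌊((-(M : ℚ) - 1) - a) / (D : ℚ)⌋ : ℚ) ≤
        (2 * M + 1) / D + 1 := by
      have : ((M : ℚ) - a) / D - ((-(M : ℚ) - 1) - a) / D = (2 * M + 1) / D := by
        rw [← sub_div]
        congr 1
        ring
      linarith
    have h8 := (Rat.cast_le (K := ℝ)).2 h7
    push_cast at h8
    exact h8
  · positivity

lemma prod_tel (z m : ℕ) : ∏ n ∈ Icc 1 z, (1 + (m : ℝ) / n) ≤ ((z : ℝ) + 1) ^ m := by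
  induction z with
  | zero => simp
  | succ z ih =>
    rw [← insert_Icc_right_eq_Icc_add_one (by omega), prod_insert (by simp)]
    have hz : (0 : ℝ) < z + 1 := by positivity
    have h1 : 1 + (m : ℝ) / ((z + 1 : ℕ) : ℝ) ≤ (1 + 1 / ((z : ℝ) + 1)) ^ m := by
      have h2 := one_add_mul_le_pow (a := 1 / ((z : ℝ) + 1)) (by
        have : 0 < 1 / ((z : ℝ) + 1) := by positivity
        linarith) m
      refine le_trans (le_of_eq ?_) h2
      push_cast
      ring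
    calc (1 + (m : ℝ) / ((z + 1 : ℕ) : ℝ)) * ∏ n ∈ Icc 1 z, (1 + (m : ℝ) / n)
        ≤ (1 + 1 / ((z : ℝ) + 1)) ^ m * ((z : ℝ) + 1) ^ m := by
          apply mul_le_mul h1 ih (prod_nonneg fun n _ => by positivity) (by positivity)
      _ = (((z + 1 : ℕ) : ℝ) + 1) ^ m := by
          rw [← mul_pow]
          congr 1
          push_cast
          field_simp

lemma count_quad (b c : ℤ) (M : ℕ) (U : Finset ℕ) (hU : ∀ p ∈ U, p.Prime) :
    (((Icc (-(M : ℤ)) M).filter (fun s => ∀ p ∈ U, (p : ℤ) ∣ s ^ 2 + b * s + c)).card : ℝ) ≤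
      2 ^ U.card * ((2 * M + 1) / (∏ p ∈ U, (p : ℝ)) + 1) := by
  obtain ⟨A, hA1, hA2⟩ := crt b c U hU
  have hD : 0 < ∏ p ∈ U, p := prod_pos fun p hp => (hU p hp).pos
  have h1 : (Icc (-(M : ℤ)) M).filter (fun s => ∀ p ∈ U, (p : ℤ) ∣ s ^ 2 + b * s + c) ⊆
      A.biUnion fun a => (Icc (-(M : ℤ)) M).filter
        (fun s => ((∏ p ∈ U, p : ℕ) : ℤ) ∣ s - a) := by
    intro s hs
    rw [mem_filter] at hs
    obtain ⟨a, ha, ha'⟩ := hA2 s hs.2
    rw [mem_biUnion]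
    exact ⟨a, ha, mem_filter.2 ⟨hs.1, ha'⟩⟩
  have h2 : (((Icc (-(M : ℤ)) M).filter
      (fun s => ∀ p ∈ U, (p : ℤ) ∣ s ^ 2 + b * s + c)).card : ℝ) ≤
      ∑ a ∈ A, (((Icc (-(M : ℤ)) M).filter
        (fun s => ((∏ p ∈ U, p : ℕ) : ℤ) ∣ s - a)).card : ℝ) := by
    exact_mod_cast (card_le_card h1).trans card_biUnion_le
  refine h2.trans ((sum_le_sum fun a _ => count_class M (∏ p ∈ U, p) hD a).trans ?_)
  rw [sum_const, nsmul_eq_mul, Nat.cast_prod]
  apply mul_le_mul_of_nonneg_right _ (by positivity)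
  exact_mod_cast hA1

theorem exp_aux {x : ℝ} : Real.exp x - 1 ≤ x * Real.exp x := by
  have h := Real.add_one_le_exp (-x)
  have h1 : Real.exp x * (-x + 1) ≤ Real.exp x * Real.exp (-x) :=
    mul_le_mul_of_nonneg_left h (Real.exp_pos x).le
  rw [← Real.exp_add, add_neg_cancel, Real.exp_zero] at h1
  linarith

/-- the size of the resultant -/
lemma res_le (M : ℕ) (d s0 s : ℤ) (hd : |d| ≤ M) (h0 : |s0| ≤ M) (hs : |s| ≤ M) (hM : 1 ≤ M) :
    (d ^ 4 + 2 * d ^ 2 * (s0 + s) + (s - s0) ^ 2).natAbs ≤ 9 * M ^ 4 := by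
  have hM' : (1 : ℤ) ≤ M := by exact_mod_cast hM
  rw [← Int.ofNat_le, Int.natCast_natAbs]
  push_cast
  have h1 : d ^ 2 ≤ (M : ℤ) ^ 2 := by
    rw [← sq_abs]
    exact pow_le_pow_left₀ (abs_nonneg d) hd 2
  have h2 : 0 ≤ d ^ 2 := sq_nonneg d
  have h3 : d ^ 4 ≤ (M : ℤ) ^ 4 := by
    calc d ^ 4 = (d ^ 2) ^ 2 := by ring
      _ ≤ ((M : ℤ) ^ 2) ^ 2 := pow_le_pow_left₀ h2 h1 2
      _ = (M : ℤ) ^ 4 := by ring
  have h4 : |s0 + s| ≤ 2 * M := (abs_add_le _ _).trans (by linarith)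
  have h5 : |s - s0| ≤ 2 * M := (abs_sub _ _).trans (by linarith)
  have h6 : (s - s0) ^ 2 ≤ (2 * (M : ℤ)) ^ 2 := by
    rw [← sq_abs]
    exact pow_le_pow_left₀ (abs_nonneg _) h5 2
  have h7 : |2 * d ^ 2 * (s0 + s)| ≤ 2 * (M : ℤ) ^ 2 * (2 * M) := by
    rw [abs_mul, abs_of_nonneg (by positivity : (0 : ℤ) ≤ 2 * d ^ 2)]
    exact mul_le_mul (by linarith) h4 (abs_nonneg _) (by positivity)
  have h8 : (M : ℤ) ^ 3 ≤ (M : ℤ) ^ 4 := pow_le_pow_right₀ hM' (by norm_num)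
  have h9 : (M : ℤ) ^ 2 ≤ (M : ℤ) ^ 4 := pow_le_pow_right₀ hM' (by norm_num)
  have h10 : 0 ≤ d ^ 4 := by positivity
  calc |d ^ 4 + 2 * d ^ 2 * (s0 + s) + (s - s0) ^ 2|
      ≤ |d ^ 4| + |2 * d ^ 2 * (s0 + s)| + |(s - s0) ^ 2| := abs_add_three _ _ _
    _ = d ^ 4 + |2 * d ^ 2 * (s0 + s)| + (s - s0) ^ 2 := by
        rw [abs_of_nonneg h10, abs_of_nonneg (sq_nonneg (s - s0))]
    _ ≤ (M : ℤ) ^ 4 + 2 * (M : ℤ) ^ 2 * (2 * M) + (2 * (M : ℤ)) ^ 2 := by linarith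
    _ = (M : ℤ) ^ 4 + 4 * (M : ℤ) ^ 3 + 4 * (M : ℤ) ^ 2 := by ring
    _ ≤ 9 * (M : ℤ) ^ 4 := by linarith

lemma card_pf (l M r : ℕ) (hr : r ≠ 0) (hl : l = Nat.log 2 M) (hrM : r ≤ 9 * M ^ 4) :
    r.primeFactors.card ≤ 4 * l + 8 := by
  have h1 : 2 ^ r.primeFactors.card ≤ ∏ p ∈ r.primeFactors, p :=
    pow_card_le_prod _ _ _ fun p hp => (Nat.prime_of_mem_primeFactors hp).two_le
  have h2 : ∏ p ∈ r.primeFactors, p ≤ r :=
    Nat.le_of_dvd (Nat.pos_of_ne_zero hr) (Nat.prod_primeFactors_dvd r)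
  have h3 : M < 2 ^ (l + 1) := by
    rw [hl]
    exact Nat.lt_pow_succ_log_self (by norm_num) M
  have h4 : M ^ 4 < (2 ^ (l + 1)) ^ 4 := Nat.pow_lt_pow_left h3 (by norm_num)
  have h5 : 2 ^ r.primeFactors.card < 2 ^ (4 * l + 8) := by
    calc 2 ^ r.primeFactors.card ≤ 9 * M ^ 4 := h1.trans (h2.trans hrM)
      _ < 16 * (2 ^ (l + 1)) ^ 4 := by omega
      _ = 2 ^ (4 * l + 8) := by ring
  exact ((Nat.pow_lt_pow_iff_right (by norm_num)).1 h5).le

lemma sum_bound (K w M z : ℕ) (b c : ℤ) (hw : 1 ≤ w) :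
    ∑ s ∈ Icc (-(M : ℤ)) M, ∏ p ∈ (Icc 1 z).filter (fun p => p.Prime ∧ w < p),
      (1 + if (p : ℤ) ∣ s ^ 2 + b * s + c then (K : ℝ) / p else 0) ≤
    (2 * M + 1) * Real.exp (2 * K / w) + ((z : ℝ) + 1) ^ (2 * K) := by
  have hw0 : (0 : ℝ) < w := by exact_mod_cast hw
  have hK0 : (0 : ℝ) ≤ K := Nat.cast_nonneg K
  set Q := (Icc 1 z).filter (fun p => p.Prime ∧ w < p) with hQ
  have hQp : ∀ p ∈ Q, p.Prime := fun p hp => (mem_filter.1 hp).2.1
  have h1 : ∀ s : ℤ, ∏ p ∈ Q, (1 + if (p : ℤ) ∣ s ^ 2 + b * s + c then (K : ℝ) / p else 0) =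
      ∑ U ∈ Q.powerset, if (∀ p ∈ U, (p : ℤ) ∣ s ^ 2 + b * s + c) then
        ∏ p ∈ U, (K : ℝ) / p else 0 := by
    intro s
    rw [prod_one_add]
    apply sum_congr rfl
    intro U _
    rw [prod_ite_zero]
  rw [sum_congr rfl fun s _ => h1 s, sum_comm]
  have h2 : ∀ U ∈ Q.powerset, ∑ s ∈ Icc (-(M : ℤ)) M,
      (if (∀ p ∈ U, (p : ℤ) ∣ s ^ 2 + b * s + c) then ∏ p ∈ U, (K : ℝ) / p else 0) ≤
      (2 * M + 1) * ∏ p ∈ U, (2 * K : ℝ) / (p : ℝ) ^ 2 + ∏ p ∈ U, (2 * K : ℝ) / p := by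
    intro U hU
    rw [mem_powerset] at hU
    rw [← sum_filter, sum_const, nsmul_eq_mul]
    have h3 := count_quad b c M U fun p hp => hQp p (hU hp)
    have h5 : 0 ≤ ∏ p ∈ U, (K : ℝ) / p := prod_nonneg fun p _ => by positivity
    refine (mul_le_mul_of_nonneg_right h3 h5).trans (le_of_eq ?_)
    have e1 : ∏ p ∈ U, (2 * K : ℝ) / p = 2 ^ U.card * ∏ p ∈ U, (K : ℝ) / p := by
      rw [← prod_const, ← prod_mul_distrib]
      exact prod_congr rfl fun p _ => by ring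
    have e2 : ∏ p ∈ U, (2 * K : ℝ) / (p : ℝ) ^ 2 =
        2 ^ U.card * ((∏ p ∈ U, (K : ℝ) / p) / ∏ p ∈ U, (p : ℝ)) := by
      rw [← prod_div_distrib, ← prod_const, ← prod_mul_distrib]
      exact prod_congr rfl fun p _ => by ring
    rw [e1, e2]
    ring
  refine (sum_le_sum h2).trans ?_
  rw [sum_add_distrib, ← mul_sum, ← prod_one_add, ← prod_one_add]
  apply add_le_add
  · apply mul_le_mul_of_nonneg_left _ (by positivity)
    have h7 : ∑ p ∈ Q, (2 * K : ℝ) / (p : ℝ) ^ 2 ≤ 2 * K / w := by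
      have hsub : Q ⊆ Ioc w z := by
        intro p hp
        rw [hQ, mem_filter, mem_Icc] at hp
        rw [mem_Ioc]
        exact ⟨hp.2.2, hp.1.2⟩
      have h8 : ∑ p ∈ Ioc w z, ((p : ℝ) ^ 2)⁻¹ ≤ (w : ℝ)⁻¹ := by
        rcases le_total w z with h | h
        · have h9 := sum_Ioc_inv_sq_le_sub (α := ℝ) (show w ≠ 0 by omega) h
          have h10 : (0 : ℝ) ≤ (z : ℝ)⁻¹ := by positivity
          linarith
        · rw [Ioc_eq_empty_of_le h, sum_empty]
          positivity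
      calc ∑ p ∈ Q, (2 * K : ℝ) / (p : ℝ) ^ 2 ≤ ∑ p ∈ Ioc w z, (2 * K : ℝ) / (p : ℝ) ^ 2 :=
            sum_le_sum_of_subset_of_nonneg hsub fun p _ _ => by positivity
        _ = 2 * K * ∑ p ∈ Ioc w z, ((p : ℝ) ^ 2)⁻¹ := by
            rw [mul_sum]
            apply sum_congr rfl
            intro p _
            rw [div_eq_mul_inv]
        _ ≤ 2 * K * (w : ℝ)⁻¹ := mul_le_mul_of_nonneg_left h8 (by positivity)
        _ = 2 * K / w := by rw [div_eq_mul_inv]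
    calc ∏ p ∈ Q, (1 + (2 * K : ℝ) / (p : ℝ) ^ 2)
        ≤ ∏ p ∈ Q, Real.exp ((2 * K : ℝ) / (p : ℝ) ^ 2) := by
          apply prod_le_prod
          · intro p _
            positivity
          · intro p _
            rw [add_comm]
            exact Real.add_one_le_exp _
      _ = Real.exp (∑ p ∈ Q, (2 * K : ℝ) / (p : ℝ) ^ 2) := (Real.exp_sum _ _).symm
      _ ≤ _ := Real.exp_le_exp.2 h7
  · have h3 := prod_tel z (2 * K)
    refine le_trans ?_ h3
    have hsub : Q ⊆ Icc 1 z := filter_subset _ _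
    rw [← prod_sdiff hsub]
    have h4 : 1 ≤ ∏ n ∈ Icc 1 z \ Q, (1 + ((2 * K : ℕ) : ℝ) / n) := by
      calc (1 : ℝ) = ∏ _n ∈ Icc 1 z \ Q, (1 : ℝ) := prod_const_one.symm
        _ ≤ _ := by
          apply prod_le_prod
          · intro n _
            positivity
          · intro n _
            have : (0 : ℝ) ≤ ((2 * K : ℕ) : ℝ) / n := by positivity
            linarith
    have h5 : ∏ p ∈ Q, (1 + (2 * K : ℝ) / p) = ∏ n ∈ Q, (1 + ((2 * K : ℕ) : ℝ) / n) := by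
      apply prod_congr rfl
      intro p _
      push_cast
      rfl
    rw [h5]
    exact le_mul_of_one_le_left (prod_nonneg fun p _ => by positivity) h4

/-- parameters -/
lemma param (K w : ℕ) (hw : 1 ≤ w) : ∃ l0 : ℕ, ∀ l : ℕ, l0 ≤ l → 1 ≤ l ∧
    Real.exp (12 * K / l) - 1 ≤ 1 / (w * Real.exp (2 * K)) ∧
    2 * (((l ^ 2 : ℕ) : ℝ) + 1) ^ (2 * K) * w ≤ 2 ^ l := by
  have hw0 : (0 : ℝ) < w := by exact_mod_cast hw
  have h1 : Filter.Tendsto (fun l : ℕ => Real.exp (12 * K / l) - 1) Filter.atTop (nhds 0) := by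
    have h2 : Filter.Tendsto (fun l : ℕ => (12 * K : ℝ) / l) Filter.atTop (nhds 0) :=
      tendsto_const_div_atTop_nhds_zero_nat _
    have h3 := (Real.continuous_exp.tendsto 0).comp h2
    rw [Real.exp_zero] at h3
    have h4 := h3.sub_const 1
    rw [sub_self] at h4
    exact h4
  have h2 : ∀ᶠ l : ℕ in Filter.atTop, Real.exp (12 * K / l) - 1 ≤ 1 / (w * Real.exp (2 * K)) :=
    (h1.eventually_lt_const (by positivity)).mono fun l hl => hl.le
  have h3 := tendsto_pow_const_div_const_pow_of_one_lt (4 * K) (one_lt_two (α := ℝ))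
  have h4 : ∀ᶠ l : ℕ in Filter.atTop, (l : ℝ) ^ (4 * K) / 2 ^ l ≤ 1 / (2 * 2 ^ (2 * K) * w) :=
    (h3.eventually_lt_const (by positivity)).mono fun l hl => hl.le
  have h5 := (h2.and h4).and (Filter.eventually_ge_atTop 1)
  obtain ⟨l0, hl0⟩ := Filter.eventually_atTop.1 h5
  refine ⟨l0, fun l hl => ?_⟩
  obtain ⟨⟨h6, h7⟩, h8⟩ := hl0 l hl
  refine ⟨h8, h6, ?_⟩
  have h9 : (1 : ℝ) ≤ l := by exact_mod_cast h8
  have h10 : (((l ^ 2 : ℕ) : ℝ) + 1) ^ (2 * K) ≤ 2 ^ (2 * K) * (l : ℝ) ^ (4 * K) := by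
    have e : (2 : ℝ) ^ (2 * K) * (l : ℝ) ^ (4 * K) = (2 * (l : ℝ) ^ 2) ^ (2 * K) := by
      rw [mul_pow, ← pow_mul]
      congr 2
      ring
    rw [e]
    apply pow_le_pow_left₀ (by positivity)
    push_cast
    nlinarith
  rw [div_le_div_iff₀ (by positivity) (by positivity), one_mul] at h7
  calc 2 * (((l ^ 2 : ℕ) : ℝ) + 1) ^ (2 * K) * w ≤ 2 * (2 ^ (2 * K) * (l : ℝ) ^ (4 * K)) * w := by
        gcongr
    _ = (l : ℝ) ^ (4 * K) * (2 * 2 ^ (2 * K) * w) := by ring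
    _ ≤ 2 ^ l := h7

/-- the collision factor is at most the product over the small primes times a factor near one -/
lemma dr_le (K w M l : ℕ) (hw : 1 ≤ w) (hl1 : 1 ≤ l) (hl : l = Nat.log 2 M) (hM : 1 ≤ M)
    (g : ℕ × ℤ) (a' : ℕ) (hg : g.1 ≤ M) (ha' : a' ≤ M) (hg2 : |g.2| ≤ M) (s : ℤ)
    (hs : s ∈ Icc (-(M : ℤ)) M) :
    DR K w g (a', s) ≤ Real.exp (12 * K / l) *
      ∏ p ∈ (Icc 1 (l ^ 2)).filter (fun p => p.Prime ∧ w < p),
        (1 + if (p : ℤ) ∣ s ^ 2 + (2 * ((a' : ℤ) - g.1) ^ 2 - 2 * g.2) * s +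
          (((a' : ℤ) - g.1) ^ 4 + 2 * ((a' : ℤ) - g.1) ^ 2 * g.2 + g.2 ^ 2) then (K : ℝ) / p
          else 0) := by
  have hw0 : (0 : ℝ) < w := by exact_mod_cast hw
  have hK0 : (0 : ℝ) ≤ K := Nat.cast_nonneg K
  have hl0 : (0 : ℝ) < l := by exact_mod_cast hl1
  set R : ℤ := s ^ 2 + (2 * ((a' : ℤ) - g.1) ^ 2 - 2 * g.2) * s +
    (((a' : ℤ) - g.1) ^ 4 + 2 * ((a' : ℤ) - g.1) ^ 2 * g.2 + g.2 ^ 2) with hR
  have hRr : Rr g (a', s) = R := by
    rw [hR]
    unfold Rr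
    ring
  have hRle : R.natAbs ≤ 9 * M ^ 4 := by
    have h1 := res_le M ((a' : ℤ) - g.1) g.2 s (by rw [abs_le]; omega) hg2
      (by rw [mem_Icc] at hs; rw [abs_le]; omega) hM
    have h2 : ((a' : ℤ) - g.1) ^ 4 + 2 * ((a' : ℤ) - g.1) ^ 2 * (g.2 + s) + (s - g.2) ^ 2 = R := by
      rw [hR]
      ring
    rwa [h2] at h1
  set Q := (Icc 1 (l ^ 2)).filter (fun p => p.Prime ∧ w < p) with hQ
  have hge1 : 1 ≤ ∏ p ∈ Q, (1 + if (p : ℤ) ∣ R then (K : ℝ) / p else 0) := by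
    calc (1 : ℝ) = ∏ _p ∈ Q, (1 : ℝ) := prod_const_one.symm
      _ ≤ _ := by
        apply prod_le_prod
        · intro n _
          positivity
        · intro n _
          split_ifs
          · have : (0 : ℝ) ≤ (K : ℝ) / n := by positivity
            linarith
          · linarith
  have hexp1 : 1 ≤ Real.exp (12 * K / l) := Real.one_le_exp (by positivity)
  unfold DR
  rw [hRr]
  by_cases hR0 : R = 0
  · rw [hR0] at hge1 ⊢
    simp only [Int.natAbs_zero, Nat.primeFactors_zero, filter_empty, prod_empty]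
    exact one_le_mul_of_one_le_of_one_le hexp1 hge1
  · have hR0' : R.natAbs ≠ 0 := Int.natAbs_ne_zero.2 hR0
    have hcard := card_pf l M R.natAbs hR0' hl hRle
    rw [← prod_filter_mul_prod_filter_not (R.natAbs.primeFactors.filter (fun p => w < p))
      (fun p => p ≤ l ^ 2), mul_comm]
    have e1 : (R.natAbs.primeFactors.filter (fun p => w < p)).filter (fun p => p ≤ l ^ 2) =
        Q.filter (fun p : ℕ => (p : ℤ) ∣ R) := by
      ext p
      rw [mem_filter, mem_filter, Nat.mem_primeFactors, mem_filter, hQ, mem_filter, mem_Icc,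
        Int.natCast_dvd]
      constructor
      · rintro ⟨⟨⟨hp, hpR, -⟩, hwp⟩, hpl⟩
        exact ⟨⟨⟨hp.one_le, hpl⟩, hp, hwp⟩, hpR⟩
      · rintro ⟨⟨⟨_, hpl⟩, hp, hwp⟩, hpR⟩
        exact ⟨⟨⟨hp, hpR, hR0'⟩, hwp⟩, hpl⟩
    have e2 : ∏ p ∈ Q.filter (fun p : ℕ => (p : ℤ) ∣ R), (1 + (K : ℝ) / p) =
        ∏ p ∈ Q, (1 + if (p : ℤ) ∣ R then (K : ℝ) / p else 0) := by
      rw [prod_filter]
      apply prod_congr rfl
      intro p _
      split_ifs
      · rfl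
      · rw [add_zero]
    rw [e1, e2]
    apply mul_le_mul_of_nonneg_right _ (by linarith)
    set B := (R.natAbs.primeFactors.filter (fun p => w < p)).filter (fun p => ¬ p ≤ l ^ 2) with hB
    have hBc : (B.card : ℝ) ≤ 4 * l + 8 := by
      have h1 : B.card ≤ R.natAbs.primeFactors.card :=
        card_le_card ((filter_subset _ _).trans (filter_subset _ _))
      exact_mod_cast h1.trans hcard
    calc ∏ p ∈ B, (1 + (K : ℝ) / p) ≤ ∏ _p ∈ B, Real.exp ((K : ℝ) / (l : ℝ) ^ 2) := by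
          apply prod_le_prod
          · intro p _
            positivity
          · intro p hp
            have h1 : ¬ p ≤ l ^ 2 := (mem_filter.1 hp).2
            have h2 : ((l : ℝ) ^ 2) ≤ p := by
              have : l ^ 2 ≤ p := by omega
              exact_mod_cast this
            have h3 : (K : ℝ) / p ≤ K / (l : ℝ) ^ 2 :=
              div_le_div_of_nonneg_left hK0 (by positivity) h2
            have h4 := Real.add_one_le_exp ((K : ℝ) / (l : ℝ) ^ 2)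
            linarith
      _ = Real.exp (B.card * ((K : ℝ) / (l : ℝ) ^ 2)) := by
          rw [prod_const, ← Real.exp_nat_mul]
      _ ≤ Real.exp (12 * K / l) := by
          apply Real.exp_le_exp.2
          have h1 : (B.card : ℝ) * ((K : ℝ) / (l : ℝ) ^ 2) ≤
              (12 * l) * ((K : ℝ) / (l : ℝ) ^ 2) := by
            apply mul_le_mul_of_nonneg_right _ (by positivity)
            have : (1 : ℝ) ≤ l := by exact_mod_cast hl1
            linarith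
          refine h1.trans (le_of_eq ?_)
          field_simp

theorem t_COLLR : S_COLLR := by
  intro K
  have hK0 : (0 : ℝ) ≤ K := Nat.cast_nonneg K
  set E2 := Real.exp (2 * K) with hE2
  have hE20 : 0 < E2 := Real.exp_pos _
  refine ⟨3 * (2 * K * E2 + 1) + 1, by positivity, fun w hw => ?_⟩
  have hw0 : (0 : ℝ) < w := by exact_mod_cast hw
  have hw1 : (1 : ℝ) ≤ w := by exact_mod_cast hw
  obtain ⟨l0, hl0⟩ := param K w hw
  refine ⟨2 ^ l0, fun M hM g a' hg ha' hg2 _ => ?_⟩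
  have hM1 : 1 ≤ M := le_trans Nat.one_le_two_pow hM
  have hM0 : (1 : ℝ) ≤ M := by exact_mod_cast hM1
  obtain ⟨l, hl⟩ : ∃ l, l = Nat.log 2 M := ⟨_, rfl⟩
  have hll : l0 ≤ l := by
    rw [hl]
    exact (Nat.le_log_iff_pow_le (by norm_num) (by omega)).2 hM
  obtain ⟨hl1, hl2, hl3⟩ := hl0 l hll
  have h2l : (2 : ℝ) ^ l ≤ M := by
    have : 2 ^ l ≤ M := by
      rw [hl]
      exact Nat.pow_log_le_self 2 (by omega)
    exact_mod_cast this
  set E := Real.exp (12 * K / l) with hE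
  have hE1 : 1 ≤ E := Real.one_le_exp (by positivity)
  have hone : ∀ s : ℤ, 1 ≤ DR K w g (a', s) := by
    intro s
    unfold DR
    calc (1 : ℝ) = ∏ _p ∈ (Rr g (a', s)).natAbs.primeFactors.filter (fun p => w < p), (1 : ℝ) :=
          prod_const_one.symm
      _ ≤ _ := by
        apply prod_le_prod
        · intro n _
          positivity
        · intro n _
          have : (0 : ℝ) ≤ (K : ℝ) / n := by positivity
          linarith
  refine (sum_le_sum_of_subset_of_nonneg (filter_subset _ _) (fun s _ _ => by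
    have := hone s
    linarith)).trans ?_
  have h1 := sum_le_sum fun s hs => dr_le K w M l hw hl1 hl hM1 g a' hg ha' hg2 s hs
  rw [← mul_sum] at h1
  have h2 := sum_bound K w M (l ^ 2) (2 * ((a' : ℤ) - g.1) ^ 2 - 2 * g.2)
    (((a' : ℤ) - g.1) ^ 4 + 2 * ((a' : ℤ) - g.1) ^ 2 * g.2 + g.2 ^ 2) hw
  have h3 := h1.trans (mul_le_mul_of_nonneg_left h2 (by positivity))
  rw [← hE] at h3
  rw [sum_sub_distrib, sum_const, nsmul_eq_mul, mul_one]
  have hcard : ((Icc (-(M : ℤ)) M).card : ℝ) = 2 * M + 1 := by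
    rw [Int.card_Icc]
    have : ((M : ℤ) + 1 - -(M : ℤ)).toNat = 2 * M + 1 := by omega
    rw [this]
    push_cast
    ring
  rw [hcard]
  -- the two small quantities
  have hA : Real.exp (2 * K / w) - 1 ≤ 2 * K / w * E2 := by
    refine exp_aux.trans ?_
    apply mul_le_mul_of_nonneg_left _ (by positivity)
    apply Real.exp_le_exp.2
    rw [div_le_iff₀ hw0]
    nlinarith
  have hA2 : Real.exp (2 * K / w) ≤ E2 := by
    apply Real.exp_le_exp.2
    rw [div_le_iff₀ hw0]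
    nlinarith
  have hB : (E - 1) * Real.exp (2 * K / w) ≤ 1 / w := by
    calc (E - 1) * Real.exp (2 * K / w) ≤ 1 / (w * E2) * E2 :=
          mul_le_mul hl2 hA2 (Real.exp_pos _).le (by positivity)
      _ = 1 / w := by field_simp
  have hE3 : E ≤ 2 := by
    have h4 : 1 / (w * E2) ≤ 1 := by
      rw [div_le_one (by positivity)]
      have : 1 ≤ E2 := Real.one_le_exp (by positivity)
      nlinarith
    linarith
  have hC : E * (((l ^ 2 : ℕ) : ℝ) + 1) ^ (2 * K) ≤ M / w := by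
    rw [le_div_iff₀ hw0]
    refine le_trans ?_ (hl3.trans h2l)
    gcongr
  have hD : E * Real.exp (2 * K / w) - 1 ≤ (2 * K * E2 + 1) / w := by
    have e : E * Real.exp (2 * K / w) - 1 =
        (Real.exp (2 * K / w) - 1) + (E - 1) * Real.exp (2 * K / w) := by ring
    rw [e, add_div]
    apply add_le_add _ hB
    refine hA.trans (le_of_eq ?_)
    ring
  have hF : (2 * (M : ℝ) + 1) * (E * Real.exp (2 * K / w) - 1) ≤
      3 * M * ((2 * K * E2 + 1) / w) := by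
    refine (mul_le_mul_of_nonneg_left hD (by positivity)).trans ?_
    apply mul_le_mul_of_nonneg_right _ (by positivity)
    linarith
  calc ∑ s ∈ Icc (-(M : ℤ)) M, DR K w g (a', s) - (2 * (M : ℝ) + 1)
      ≤ E * ((2 * M + 1) * Real.exp (2 * K / w) + (((l ^ 2 : ℕ) : ℝ) + 1) ^ (2 * K)) -
        (2 * (M : ℝ) + 1) := by linarith
    _ = (2 * (M : ℝ) + 1) * (E * Real.exp (2 * K / w) - 1) +
        E * (((l ^ 2 : ℕ) : ℝ) + 1) ^ (2 * K) := by ring
    _ ≤ 3 * M * ((2 * K * E2 + 1) / w) + M / w := add_le_add hF hC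
    _ = (3 * (2 * K * E2 + 1) + 1) * M / w := by ring

end Pool.Agent.Y954.SQ
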